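import Pool.Agent.Helper32.LD.StT1

/-!
# LD project, module GD: two geodesics give a closed sequence
-/

set_option autoImplicit false

namespace Pool.Agent.Helper42.LD

open Pool.Agent.Helper2.LD Pool.Agent.Helper32.LD

theorem gd_lip {V : Type} (G : SimpleGraph V) (r : ℕ) (f : ℕ → V)
    (hf : ∀ i, i < r → G.Adj (f i) (f (i + 1))) (i k : ℕ) (h : i + k ≤ r) :
    G.edist (f i) (f (i + k)) ≤ (k : ℕ∞) := by
  induction k with
  | zero => simp
  | succ k ih =>
    have h1 := ih (by omega)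
    have h2 : G.edist (f (i + k)) (f (i + k + 1)) = 1 :=
      SimpleGraph.edist_eq_one_iff_adj.mpr (hf (i + k) (by omega))
    calc G.edist (f i) (f (i + (k + 1)))
        ≤ G.edist (f i) (f (i + k)) + G.edist (f (i + k)) (f (i + k + 1)) :=
          SimpleGraph.edist_triangle
      _ ≤ (k : ℕ∞) + 1 := by rw [h2]; gcongr
      _ = ((k + 1 : ℕ) : ℕ∞) := by push_cast; rfl

theorem gd_eq {a : ℕ∞} {i r : ℕ} (h : i ≤ r) (h1 : a ≤ (i : ℕ∞))
    (h2 : (r : ℕ∞) ≤ a + ((r - i : ℕ) : ℕ∞)) : a = (i : ℕ∞) := by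
  have ha : a ≠ ⊤ := ne_top_of_le_ne_top (ENat.natCast_ne_top i) h1
  lift a to ℕ using ha
  norm_cast at h1 h2 ⊢
  omega

theorem gd_ray {V : Type} (G : SimpleGraph V) (r : ℕ) (hr : 1 ≤ r) (u z w : V)
    (hz : G.edist u z = (r : ℕ∞)) (ha : G.Adj z w) (hw : G.edist u w = ((r - 1 : ℕ) : ℕ∞)) :
    ∃ f : ℕ → V, f 0 = u ∧ f r = z ∧ f (r - 1) = w ∧ (∀ i, i < r → G.Adj (f i) (f (i + 1))) ∧
      ∀ i, i ≤ r → G.edist u (f i) = (i : ℕ∞) := by
  have hreach : G.Reachable u w := by
    rw [← SimpleGraph.edist_ne_top_iff_reachable, hw]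
    exact ENat.natCast_ne_top _
  obtain ⟨q, hq⟩ := hreach.exists_walk_length_eq_edist
  have hq' : q.length = r - 1 := by
    rw [hw] at hq
    exact_mod_cast hq
  obtain ⟨f, hfd⟩ : ∃ f : ℕ → V, f = fun i => if i < r then q.getVert i else z := ⟨_, rfl⟩
  have fi : ∀ i, i < r → f i = q.getVert i := by
    intro i hi
    rw [hfd]
    exact if_pos hi
  have fr : f r = z := by
    rw [hfd]
    exact if_neg (lt_irrefl r)
  have f0 : f 0 = u := by
    rw [fi 0 (by omega), q.getVert_zero]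
  have hf : ∀ i, i < r → G.Adj (f i) (f (i + 1)) := by
    intro i hi
    rw [fi i hi]
    by_cases h1 : i + 1 < r
    · rw [fi (i + 1) h1]
      exact q.adj_getVert_succ (by omega)
    · have h2 : i = q.length := by omega
      rw [show i + 1 = r by omega, fr, h2, q.getVert_length]
      exact ha.symm
  refine ⟨f, f0, fr, ?_, hf, ?_⟩
  · rw [fi _ (by omega), ← hq', q.getVert_length]
  · intro i hi
    have h2 := gd_lip G r f hf 0 i (by omega)
    have h3 := gd_lip G r f hf i (r - i) (by omega)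
    rw [f0, Nat.zero_add] at h2
    rw [Nat.add_sub_cancel' hi, fr] at h3
    apply gd_eq hi h2
    rw [← hz]
    exact SimpleGraph.edist_triangle.trans (by gcongr)

/-- distance from the second point of a geodesic -/
theorem gd_one {V : Type} (G : SimpleGraph V) (r : ℕ) (f : ℕ → V)
    (hf : ∀ i, i < r → G.Adj (f i) (f (i + 1)))
    (hd : ∀ i, i ≤ r → G.edist (f 0) (f i) = (i : ℕ∞)) (k : ℕ) (hk : k + 1 ≤ r) :
    G.edist (f 1) (f (k + 1)) = (k : ℕ∞) := by
  have h1 := gd_lip G r f hf 1 k (by omega)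
  rw [add_comm 1 k] at h1
  have h2 := hd (k + 1) hk
  have h3 : G.edist (f 0) (f 1) = 1 := SimpleGraph.edist_eq_one_iff_adj.mpr (hf 0 (by omega))
  have h4 : G.edist (f 0) (f (k + 1)) ≤ G.edist (f 0) (f 1) + G.edist (f 1) (f (k + 1)) :=
    SimpleGraph.edist_triangle
  rw [h2, h3] at h4
  have ha : G.edist (f 1) (f (k + 1)) ≠ ⊤ := ne_top_of_le_ne_top (ENat.natCast_ne_top k) h1
  obtain ⟨m, hm⟩ := ENat.ne_top_iff_exists.mp ha
  rw [← hm] at h1 h4 ⊢
  norm_cast at h1 h4 ⊢
  omega

theorem gd_ne {V : Type} (G : SimpleGraph V) {u : V} {r : ℕ} {f : ℕ → V}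
    (hd : ∀ i, i ≤ r → G.edist u (f i) = (i : ℕ∞)) {i j : ℕ} (hi : i ≤ r) (hj : j ≤ r)
    (hij : i ≠ j) : f i ≠ f j := by
  intro h
  have h1 := hd i hi
  rw [h, hd j hj] at h1
  exact hij (by exact_mod_cast h1.symm)

theorem tGD : StGD := by
  intro V G r hr1 huniq u z w w' hz hzw hw hzw' hw' hne hr2
  obtain ⟨f1, a0, ar, aw, aadj, ad⟩ := gd_ray G r hr1 u z w hz hzw hw
  obtain ⟨f2, b0, br, bw, badj, bd⟩ := gd_ray G r hr1 u z w' hz hzw' hw'
  have h11 : f1 1 ≠ f2 1 := by
    intro heq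
    have e1 := gd_one G r f1 aadj (by rw [a0]; exact ad) (r - 1) (by omega)
    have e2 := gd_one G r f1 aadj (by rw [a0]; exact ad) (r - 2) (by omega)
    have e3 := gd_one G r f2 badj (by rw [b0]; exact bd) (r - 2) (by omega)
    rw [Nat.sub_add_cancel hr1, ar] at e1
    rw [show r - 2 + 1 = r - 1 by omega] at e2 e3
    rw [aw] at e2
    rw [bw, ← heq] at e3
    apply hne
    apply huniq (f1 1) z w w' (r - 2) (by omega) _ hzw e2 hzw' e3
    rw [e1, show r - 2 + 1 = r - 1 by omega]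
  obtain ⟨g, hg⟩ : ∃ g : ℕ → V, g = fun m => if m ≤ r then f1 m else f2 (2 * r - m) := ⟨_, rfl⟩
  have g1 : ∀ m, m ≤ r → g m = f1 m := by
    intro m hm
    rw [hg]
    simp only
    rw [if_pos hm]
  have g2 : ∀ m, r ≤ m → g m = f2 (2 * r - m) := by
    intro m hm
    rcases Nat.eq_or_lt_of_le hm with h | h
    · subst h
      rw [g1 r (le_refl _), ar, show 2 * r - r = r by omega, br]
    · rw [hg]
      simp only
      rw [if_neg (by omega)]
  have g00 : g (2 * r) = g 0 := by
    rw [g2 (2 * r) (by omega), g1 0 (by omega), Nat.sub_self, a0, b0]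
  have gadj : ∀ m, m < 2 * r → G.Adj (g m) (g (m + 1)) := by
    intro m hm
    by_cases h : m < r
    · rw [g1 m (by omega), g1 (m + 1) (by omega)]
      exact aadj m h
    · rw [g2 m (by omega), g2 (m + 1) (by omega)]
      have := badj (2 * r - (m + 1)) (by omega)
      rw [show 2 * r - (m + 1) + 1 = 2 * r - m by omega] at this
      exact this.symm
  have gne : ∀ m, m + 2 ≤ 2 * r → g m ≠ g (m + 2) := by
    intro m hm
    by_cases h : m + 2 ≤ r
    · rw [g1 m (by omega), g1 (m + 2) h]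
      exact gd_ne G ad (by omega) h (by omega)
    · by_cases h' : r ≤ m
      · rw [g2 m h', g2 (m + 2) (by omega)]
        exact gd_ne G bd (by omega) (by omega) (by omega)
      · have h3 : m = r - 1 := by omega
        rw [g1 m (by omega), g2 (m + 2) (by omega), h3, aw,
          show 2 * r - (r - 1 + 2) = r - 1 by omega, bw]
        exact hne
  have hmod : ∀ i, (i + 1) % (2 * r) = if i % (2 * r) + 1 = 2 * r then 0 else i % (2 * r) + 1 := by
    intro i
    have h1 : i % (2 * r) < 2 * r := Nat.mod_lt _ (by omega)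
    split_ifs with h2
    · rw [Nat.add_mod, show (1 : ℕ) % (2 * r) = 1 from Nat.mod_eq_of_lt (by omega), h2,
        Nat.mod_self]
    · rw [Nat.add_mod, show (1 : ℕ) % (2 * r) = 1 from Nat.mod_eq_of_lt (by omega)]
      exact Nat.mod_eq_of_lt (by omega)
  refine ⟨fun i => g (i % (2 * r)), ?_, ?_, ?_, ?_, ?_, ?_, ?_⟩
  · intro i
    simp only [Nat.add_mod_right]
  · intro i
    have h1 : i % (2 * r) < 2 * r := Nat.mod_lt _ (by omega)
    have h2 := gadj _ h1
    simp only
    rw [hmod i]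
    split_ifs with h3
    · rw [h3, g00] at h2
      exact h2
    · exact h2
  · intro i
    have h1 : i % (2 * r) < 2 * r := Nat.mod_lt _ (by omega)
    simp only
    rw [show i + 2 = (i + 1) + 1 from rfl, hmod (i + 1), hmod i]
    by_cases h3 : i % (2 * r) + 1 = 2 * r
    · have h5 : ¬ (0 + 1 = 2 * r) := by omega
      rw [if_pos h3, if_neg h5, show i % (2 * r) = 2 * r - 1 by omega,
        g2 (2 * r - 1) (by omega), g1 (0 + 1) (by omega), show 2 * r - (2 * r - 1) = 1 by omega]
      exact h11.symm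
    · rw [if_neg h3]
      by_cases h4 : i % (2 * r) + 1 + 1 = 2 * r
      · rw [if_pos h4, ← g00]
        have h6 := gne (i % (2 * r)) (by omega)
        rw [show i % (2 * r) + 2 = 2 * r by omega] at h6
        exact h6
      · rw [if_neg h4]
        exact gne (i % (2 * r)) (by omega)
  · simp only [Nat.zero_mod]
    rw [g1 0 (by omega), a0]
  · simp only
    rw [Nat.mod_eq_of_lt (by omega), g1 r (le_refl _), ar]
  · simp only
    rw [Nat.mod_eq_of_lt (by omega), g1 (r - 1) (by omega), aw]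
  · simp only
    rw [Nat.mod_eq_of_lt (by omega), g2 (r + 1) (by omega), show 2 * r - (r + 1) = r - 1 by omega,
      bw]

end Pool.Agent.Helper42.LD
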