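import Pool.Agent.Helper32.LD.StT1

/-!
# LD project, module NC: girth from closed sequences
-/

set_option autoImplicit false

namespace Pool.Agent.Helper42.LD

open Pool.Agent.Helper2.LD Pool.Agent.Helper32.LD

theorem tNC : StNC := by
  intro V G L h v c hc
  have hn : 3 ≤ c.length := hc.three_le_length
  have hinj := hc.getVert_injOn'
  obtain ⟨n, hnn⟩ : ∃ n, n = c.length := ⟨_, rfl⟩
  rw [← hnn] at hn hinj ⊢
  have hmod : ∀ i, (i + 1) % n = if i % n + 1 = n then 0 else i % n + 1 := by
    intro i
    have h1 : i % n < n := Nat.mod_lt _ (by omega)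
    split_ifs with h2
    · rw [Nat.add_mod, show (1 : ℕ) % n = 1 from Nat.mod_eq_of_lt (by omega), h2, Nat.mod_self]
    · rw [Nat.add_mod, show (1 : ℕ) % n = 1 from Nat.mod_eq_of_lt (by omega)]
      exact Nat.mod_eq_of_lt (by omega)
  refine h (fun i => c.getVert (i % n)) n (by omega) ?_ ?_ ?_
  · intro i
    simp only [Nat.add_mod_right]
  · intro i
    have h1 : i % n < n := Nat.mod_lt _ (by omega)
    have h2 := c.adj_getVert_succ (i := i % n) (by omega)
    show G.Adj (c.getVert (i % n)) (c.getVert ((i + 1) % n))
    rw [hmod i]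
    split_ifs with h3
    · rw [h3, hnn, c.getVert_length] at h2
      rw [c.getVert_zero]
      rw [hnn]
      exact h2
    · exact h2
  · intro i heq
    have h1 : i % n < n := Nat.mod_lt _ (by omega)
    have h2 : (i + 2) % n < n := Nat.mod_lt _ (by omega)
    have h3 : i % n = (i + 2) % n := by
      apply hinj _ _ heq
      · show i % n ≤ n - 1
        omega
      · show (i + 2) % n ≤ n - 1
        omega
    rw [show i + 2 = (i + 1) + 1 from rfl, hmod (i + 1), hmod i] at h3
    split_ifs at h3 <;> omega

end Pool.Agent.Helper42.LD
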